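import Pool.Agent.W236.SC.Defs2
import Pool.Agent.W236.SC.LDefs

/-!
# SC-GH: edges inside the interval from adjacent chambers
-/

set_option autoImplicit false

namespace Pool.Agent.W928.SC.GH

open Pool.Agent.W236.SC Pool.Agent.Helper741 Relation

universe u

section newman

variable {α : Type*} (R : α → α → Prop) (f : α → ℕ)

theorem newman (hf : ∀ x y, R x y → f y < f x)
    (hloc : ∀ x y z, R x y → R x z → ∃ w, ReflTransGen R y w ∧ ReflTransGen R z w) :
    ∀ x y z, ReflTransGen R x y → ReflTransGen R x z →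
      ∃ w, ReflTransGen R y w ∧ ReflTransGen R z w := by
  intro x
  induction hn : f x using Nat.strong_induction_on generalizing x with
  | _ n ih =>
  intro y z hxy hxz
  rcases ReflTransGen.cases_head hxy with rfl | ⟨y1, h1, h2⟩
  · exact ⟨z, hxz, .refl⟩
  rcases ReflTransGen.cases_head hxz with rfl | ⟨z1, h3, h4⟩
  · exact ⟨y, .refl, hxy⟩
  obtain ⟨w0, a1, a2⟩ := hloc x y1 z1 h1 h3
  obtain ⟨w1, b1, b2⟩ := ih (f y1) (by have := hf _ _ h1; omega) y1 rfl y w0 h2 a1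
  obtain ⟨w2, c1, c2⟩ := ih (f z1) (by have := hf _ _ h3; omega) z1 rfl w1 z (a2.trans b2) h4
  exact ⟨w2, b1.trans c1, c2⟩

theorem maxel (hf : ∀ x y, R x y → f y < f x) : ∀ x, ∃ a, ReflTransGen R x a ∧ ∀ y, ¬ R a y := by
  intro x
  induction hn : f x using Nat.strong_induction_on generalizing x with
  | _ n ih =>
  by_cases h : ∃ y, R x y
  · obtain ⟨y, hy⟩ := h
    obtain ⟨a, ha, ha'⟩ := ih (f y) (by have := hf _ _ hy; omega) y rfl
    exact ⟨a, .head hy ha, ha'⟩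
  · push Not at h
    exact ⟨x, .refl, h⟩

end newman

section

variable {B : Type*} [Fintype B] [DecidableEq B] {M : CoxeterMatrix B}
variable {W : Type u} [Group W] (cs : CoxeterSystem M W)

theorem wle_up (x : W) (s : B) (h : cs.length x < cs.length (x * cs.simple s)) :
    WLe cs x (x * cs.simple s) := by
  unfold WLe
  rw [inv_mul_cancel_left, cs.length_simple]
  rcases cs.length_mul_simple x s with h1 | h1 <;> omega

theorem wle_down (y : W) (s : B) (h : cs.length (y * cs.simple s) < cs.length y) :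
    WLe cs (y * cs.simple s) y := by
  have h1 := wle_up cs (y * cs.simple s) s (by rwa [cs.simple_mul_simple_cancel_right])
  rwa [cs.simple_mul_simple_cancel_right] at h1

theorem wle_length {x y : W} (h : WLe cs x y) : cs.length x ≤ cs.length y := by
  unfold WLe at h
  omega

theorem geo_mul (x y : W) (v : B → ℝ) : geo cs (x * y) v = geo cs x (geo cs y v) := by
  rw [map_mul, Module.End.mul_apply]

/-- the same facet -/
def Keq (n : ℕ) (q : ℕ → B) (ω x y : W) : Prop :=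
  ∃ V, IsK cs n q ω x V ∧ IsK cs n q ω y V

/-- allowed edges -/
def RR (n : ℕ) (q : ℕ → B) (ω w x y : W) : Prop :=
  ∃ t, y = x * cs.simple t ∧ cs.length x < cs.length y ∧ WLe cs y ω ∧
    (Keq cs n q ω x y ∨ geo cs w⁻¹ (geo cs x (ee t)) ≤ 0)

variable {n : ℕ} {q : ℕ → B} {ω : W}

theorem RR_lt (w x y : W) (h : RR cs n q ω w x y) :
    cs.length ω - cs.length y < cs.length ω - cs.length x := by
  obtain ⟨t, -, h1, h2, -⟩ := h
  have := wle_length cs h2
  omega

theorem alt_one (x : W) (s t : B) : x * alt cs s t 1 = x * cs.simple s := by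
  simp [Pool.Agent.W236.SC.alt]

theorem alt_succ (x : W) (s t : B) (k : ℕ) :
    x * alt cs s t (k + 1) = x * alt cs s t k * cs.simple (if Even k then s else t) := by
  rw [mul_assoc]
  rfl

theorem chain (R : W → W → Prop) (x : W) (s t : B) {a m : ℕ} (ham : a ≤ m)
    (h : ∀ k, a ≤ k → k < m → R (x * alt cs s t k) (x * alt cs s t (k + 1))) :
    ReflTransGen R (x * alt cs s t a) (x * alt cs s t m) := by
  induction m, ham using Nat.le_induction with
  | base => exact .refl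
  | succ m ham ih => exact (ih fun k h1 h2 => h k h1 (by omega)).tail (h m ham (by omega))

/-- data of a polygon below `ω` -/
structure Poly2 (ω x : W) (s t : B) : Prop where
  ne : s ≠ t
  ups : cs.length x < cs.length (x * cs.simple s)
  upt : cs.length x < cs.length (x * cs.simple t)
  len : ∀ k, k ≤ M s t → cs.length (x * alt cs s t k) = cs.length x + k
  le : ∀ k, k ≤ M s t → WLe cs (x * alt cs s t k) ω
  top : alt cs s t (M s t) = alt cs t s (M s t)

theorem poly2 (hM : ∀ i j, M i j ≠ 0) (hW : S_WEAK cs) (hP : S_POLY cs) {x : W} {s t : B}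
    (hst : s ≠ t) (hs : cs.length x < cs.length (x * cs.simple s))
    (ht : cs.length x < cs.length (x * cs.simple t)) (h1 : WLe cs (x * cs.simple s) ω)
    (h2 : WLe cs (x * cs.simple t) ω) : Poly2 cs ω x s t := by
  obtain ⟨a1, a2, a3, a4⟩ := hP.1 x s t hst (hM s t) hs ht
  have htop := a4 ω h1 h2
  exact ⟨hst, hs, ht, a1, fun k hk => hW.2.2.1 _ _ _ (a2 k (M s t) hk le_rfl) htop, a3⟩

theorem Poly2.edge {x : W} {s t : B} (h : Poly2 cs ω x s t) {w : W} {k : ℕ} (hk : k < M s t)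
    (hK : Keq cs n q ω (x * alt cs s t k) (x * alt cs s t (k + 1)) ∨
      geo cs w⁻¹ (geo cs (x * alt cs s t k) (ee (if Even k then s else t))) ≤ 0) :
    RR cs n q ω w (x * alt cs s t k) (x * alt cs s t (k + 1)) := by
  refine ⟨if Even k then s else t, alt_succ cs x s t k, ?_, h.le (k + 1) (by omega), hK⟩
  rw [h.len k (by omega), h.len (k + 1) (by omega)]
  omega

/-- both roots in `N(w)` -/
theorem neg_comb (hM : ∀ i j, M i j ≠ 0) (hPl : S_PLANE cs) (hA : S_ALTF cs) {x w : W} {s t : B}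
    (hst : s ≠ t) (hs : geo cs w⁻¹ (geo cs x (ee s)) ≤ 0) (ht : geo cs w⁻¹ (geo cs x (ee t)) ≤ 0)
    {k : ℕ} (hk : k < M s t) :
    geo cs w⁻¹ (geo cs (x * alt cs s t k) (ee (if Even k then s else t))) ≤ 0 := by
  obtain ⟨b1, b2, -⟩ := hA s t hst (hM s t)
  set c : B := if Even k then s else t with hc
  set y : B → ℝ := geo cs (alt cs s t k) (ee c) with hy
  have hy0 : 0 ≤ y := b2 k hk
  have hyi : ∀ i, i ≠ s → i ≠ t → y i = 0 := by
    intro i his hit
    have h1 := (hPl s t hst (alt cs s t k) (b1 k)).1 (ee c) i his hit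
    rw [hy, h1]
    have hic : i ≠ c := by
      rw [hc]
      split_ifs
      · exact his
      · exact hit
    simp [ee, hic]
  have hdec : y = y s • ee s + y t • ee t := by
    funext i
    simp only [Pi.add_apply, Pi.smul_apply, smul_eq_mul, ee, Pi.single_apply]
    by_cases h1 : i = s
    · subst h1
      simp [hst]
    · by_cases h2 : i = t
      · subst h2
        simp [hst.symm]
      · simp [h1, h2, hyi i h1 h2]
  rw [geo_mul, ← hy, hdec, map_add, map_smul, map_smul, map_add, map_smul, map_smul]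
  intro i
  have e1 := mul_nonneg (hy0 s) (neg_nonneg.2 (hs i))
  have e2 := mul_nonneg (hy0 t) (neg_nonneg.2 (ht i))
  simp only [Pi.add_apply, Pi.smul_apply, smul_eq_mul, Pi.zero_apply] at e1 e2 ⊢
  linarith

variable (hq : AltM M n q) (hM : ∀ i j, M i j ≠ 0) (hKEX : S_KEX cs) (hA : S_ALTF cs)
  (h1 : S_PF1 cs) (h2 : S_PF2 cs)

include hq hM hKEX hA h1 h2 in
/-- a contracted edge -/
theorem case2 {x w : W} {s t : B} (hp : Poly2 cs ω x s t) (hp' : Poly2 cs ω x t s)
    (hf : ∃ U, IsFac cs n q ω U) (hK : Keq cs n q ω x (x * cs.simple t))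
    (hs : Keq cs n q ω x (x * cs.simple s) ∨ geo cs w⁻¹ (geo cs x (ee s)) ≤ 0) :
    ∃ y, ReflTransGen (RR cs n q ω w) (x * cs.simple s) y ∧
      ReflTransGen (RR cs n q ω w) (x * cs.simple t) y := by
  have hsym : M t s = M s t := M.symmetric t s
  have hm2 : 2 ≤ M s t := two_le_of_ne M hp.ne (hM s t)
  obtain ⟨V, hV1, hV2⟩ := hK
  have hle1 := hp.le 1 (by omega)
  rw [alt_one] at hle1
  have hle2 := hp'.le 1 (by omega)
  rw [alt_one] at hle2
  obtain ⟨U1, hU1⟩ := hKEX n q ω _ hf hle1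
  have htop : WLe cs (x * alt cs t s (M t s)) ω := hp'.le _ le_rfl
  have htop' : WLe cs (x * alt cs s t (M s t)) ω := hp.le _ le_rfl
  have hc1 := h1 n q ω x t s V U1 hq hp.ne.symm (hM t s) hp.upt hp.ups htop hV1 hV2 hU1
  refine ⟨x * alt cs s t (M s t), ?_, ?_⟩
  · rw [← alt_one cs x s t]
    refine chain cs _ x s t (by omega) fun k hk1 hk2 => hp.edge cs hk2 (Or.inl ⟨U1, ?_, ?_⟩)
    · exact hc1 k hk1 (by omega)
    · exact hc1 (k + 1) (by omega) (by omega)
  · have e : x * alt cs s t (M s t) = x * alt cs t s (M t s) := by rw [hp.top, hsym]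
    rw [← alt_one cs x t s, e]
    rcases hs with ⟨V', hV1', hV2'⟩ | hs
    · obtain ⟨U2, hU2⟩ := hKEX n q ω _ hf hle2
      have hc2 := h1 n q ω x s t V' U2 hq hp.ne (hM s t) hp.ups hp.upt htop' hV1' hV2' hU2
      refine chain cs _ x t s (by omega) fun k hk1 hk2 => hp'.edge cs hk2 (Or.inl ⟨U2, ?_, ?_⟩)
      · exact hc2 k hk1 (by omega)
      · exact hc2 (k + 1) (by omega) (by omega)
    · obtain ⟨U3, hU3⟩ := hKEX n q ω _ hf (hp'.le (M s t - 1) (by omega))
      have hc2 := h2 n q ω x s t U1 U3 hq hp.ne (hM s t) hp.ups hp.upt htop'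
        (hc1 (M s t) (by omega) (by omega)) (hc1 (M s t - 1) (by omega) (by omega)) hU3
      refine chain cs _ x t s (by omega) fun k hk1 hk2 => hp'.edge cs hk2 ?_
      by_cases hk : k + 1 < M t s
      · exact Or.inl ⟨U3, hc2 k (by omega), hc2 (k + 1) (by omega)⟩
      · right
        have hk' : k = M t s - 1 := by omega
        obtain ⟨-, -, -, -, -, b6⟩ := hA t s hp.ne.symm (hM t s)
        rw [hk', geo_mul, b6]
        exact hs

variable (hPl : S_PLANE cs) (hW : S_WEAK cs) (hP : S_POLY cs)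

include hq hM hKEX hA h1 h2 hPl hW hP in
/-- local confluence -/
theorem loc (hf : ∃ U, IsFac cs n q ω U) (w x y z : W) (hy : RR cs n q ω w x y)
    (hz : RR cs n q ω w x z) :
    ∃ v, ReflTransGen (RR cs n q ω w) y v ∧ ReflTransGen (RR cs n q ω w) z v := by
  obtain ⟨s, rfl, hs1, hs2, hs3⟩ := hy
  obtain ⟨t, rfl, ht1, ht2, ht3⟩ := hz
  by_cases hst : s = t
  · subst hst
    exact ⟨_, .refl, .refl⟩
  have hp := poly2 cs hM hW hP hst hs1 ht1 hs2 ht2
  have hp' := poly2 cs hM hW hP (Ne.symm hst) ht1 hs1 ht2 hs2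
  rcases ht3 with ht3 | ht3
  · exact case2 cs hq hM hKEX hA h1 h2 hp hp' hf ht3 hs3
  rcases hs3 with hs3 | hs3
  · obtain ⟨v, a, b⟩ := case2 cs hq hM hKEX hA h1 h2 hp' hp hf hs3 (Or.inr ht3)
    exact ⟨v, b, a⟩
  have hsym : M t s = M s t := M.symmetric t s
  have hm2 : 2 ≤ M s t := two_le_of_ne M hst (hM s t)
  refine ⟨x * alt cs s t (M s t), ?_, ?_⟩
  · rw [← alt_one cs x s t]
    exact chain cs _ x s t (by omega) fun k hk1 hk2 =>
      hp.edge cs hk2 (Or.inr (neg_comb cs hM hPl hA hst hs3 ht3 hk2))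
  · have e : x * alt cs s t (M s t) = x * alt cs t s (M t s) := by rw [hp.top, hsym]
    rw [← alt_one cs x t s, e]
    exact chain cs _ x t s (by omega) fun k hk1 hk2 =>
      hp'.edge cs hk2 (Or.inr (neg_comb cs hM hPl hA (Ne.symm hst) ht3 hs3 hk2))

variable (hB : BaseF cs) (hKUN : S_KUN cs) (hCI : S_CI cs) (hC : S_CROSS cs)

include hq hKEX hW hCI in
/-- (2) everything below `x` is reached -/
theorem reach {x w : W} {V : Finset ℕ} (hx : WLe cs x ω) (hV : IsK cs n q ω x V)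
    (hw : Pos cs n q V w) : ∀ y, WLe cs y x → ReflTransGen (RR cs n q ω w) 1 y := by
  obtain ⟨w1, w2, w3, w4, w5, w6, w7⟩ := hW
  intro y
  induction hn : cs.length y using Nat.strong_induction_on generalizing y with
  | _ m ih =>
  intro hy
  by_cases h1y : y = 1
  · rw [h1y]
  have hle1 : WLe cs 1 y := by
    unfold WLe
    simp
  obtain ⟨s, hs, -⟩ := w6 1 y hle1 (Ne.symm h1y)
  have hd := wle_down cs y s hs
  have hd' : WLe cs (y * cs.simple s) x := w3 _ _ _ hd hy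
  have e : y * cs.simple s * cs.simple s = y := cs.simple_mul_simple_cancel_right s
  refine (ih _ (by omega) (y * cs.simple s) rfl hd').tail ⟨s, e.symm, hs, w3 _ _ _ hy hx, ?_⟩
  obtain ⟨U1, hU1⟩ := hKEX n q ω _ ⟨V, hV.fac⟩ (w3 _ _ _ hd' hx)
  obtain ⟨U2, hU2⟩ := hKEX n q ω _ ⟨V, hV.fac⟩ (w3 _ _ _ hy hx)
  by_cases hU : U1 = U2
  · subst hU
    exact Or.inl ⟨U1, hU1, hU2⟩
  · right
    exact hCI n q ω (y * cs.simple s) x w s U1 U2 V hq (by rw [e]; exact hs) (by rw [e]; exact hy)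
      hx hU1 (by rw [e]; exact hU2) hU hV hw

include hB hKUN hC in
/-- (3) one step -/
theorem step3 {w y z : W} {V : Finset ℕ} (hw : Pos cs n q V w) (hy : IsK cs n q ω y V)
    (hR : RR cs n q ω w y z) : IsK cs n q ω z V := by
  obtain ⟨t, rfl, ht, -, hK⟩ := hR
  rcases hK with ⟨V', hV1, hV2⟩ | hK
  · rwa [hKUN n q ω y V V' hy hV1]
  · by_contra hcon
    have h1 := (hC n q ω y t V ht).1 hy
    have h2 : ¬ ∀ k, k < n → k ∉ V → rt cs q V k ≠ geo cs y (ee t) := fun h => hcon (h1 h)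
    push Not at h2
    obtain ⟨k, hk1, hk2, hk3⟩ := h2
    have h3 := hw k hk1 hk2
    rw [hk3] at h3
    have h4 : geo cs w⁻¹ (geo cs y (ee t)) = 0 := le_antisymm hK h3
    exact hB.rt_ne _ (hB.rt_geo w⁻¹ _ (hB.rt_geo y _ (hB.rt_ee t))) h4

include hB hKUN hC in
/-- (3) -/
theorem steps3 {w y z : W} {V : Finset ℕ} (hw : Pos cs n q V w) (hy : IsK cs n q ω y V)
    (hR : ReflTransGen (RR cs n q ω w) y z) : IsK cs n q ω z V := by
  induction hR with
  | refl => exact hy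
  | tail _ h ih => exact step3 cs hB hKUN hC hw ih h

end

section main

variable {B : Type*} [Fintype B] [DecidableEq B] {M : CoxeterMatrix B}
variable {W : Type u} [Group W] (cs : CoxeterSystem M W)

/-- (GH), `S_Newman` is proved here -/
theorem gh' (hM : ∀ i j, M i j ≠ 0) (hB : BaseF cs)
    (hR : S_ROOTS cs) (hC : S_CROSS cs) (hKEX : S_KEX cs)
    (hKUN : S_KUN cs) (hW : S_WEAK cs) (hP : S_POLY cs) (hPl : S_PLANE cs) (hA : S_ALTF cs)
    (h1 : S_PF1 cs) (h2 : S_PF2 cs) (hCI : S_CI cs) : S_GH cs := by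
  intro n q ω v s U U' hq hv hU hU' hne hex hex'
  obtain ⟨x, hx, hxU⟩ := hex
  obtain ⟨x', hx', hxU'⟩ := hex'
  have hf : ∃ U, IsFac cs n q ω U := ⟨U, hU.fac⟩
  obtain ⟨w1, w2, w3, w4, w5, w6, w7⟩ := id hW
  -- maximal elements
  have r1 := reach cs hq hKEX hW hCI hx hxU hU.pos x (w2 x)
  have r2 := reach cs hq hKEX hW hCI hx' hxU' hU'.pos x' (w2 x')
  obtain ⟨a, ha, ha'⟩ := maxel (RR cs n q ω v) (fun y => cs.length ω - cs.length y)
    (fun y z h => RR_lt cs v y z h) x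
  obtain ⟨b, hb, hb'⟩ := maxel (RR cs n q ω (v * cs.simple s)) (fun y => cs.length ω - cs.length y)
    (fun y z h => RR_lt cs _ y z h) x'
  have haU : IsK cs n q ω a U := steps3 cs hB hKUN hC hU.pos hxU ha
  have hbU : IsK cs n q ω b U' := steps3 cs hB hKUN hC hU'.pos hxU' hb
  -- `R_v` is contained in `R_{vs}`
  have hN : ∀ β, IsRt cs β → 0 ≤ β → geo cs v⁻¹ β ≤ 0 → geo cs (v * cs.simple s)⁻¹ β ≤ 0 :=
    (w1 v (v * cs.simple s)).1 (wle_up cs v s hv)
  have hsub : ∀ y z, RR cs n q ω v y z → RR cs n q ω (v * cs.simple s) y z := by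
    rintro y z ⟨t, rfl, k1, k2, k3⟩
    refine ⟨t, rfl, k1, k2, k3.imp id fun k4 => ?_⟩
    exact hN _ (hB.rt_geo y _ (hB.rt_ee t)) (geo_nonneg cs y t k1) k4
  have h1a : ReflTransGen (RR cs n q ω (v * cs.simple s)) 1 a :=
    (ReflTransGen.mono hsub _ _ r1).trans (ReflTransGen.mono hsub _ _ ha)
  have h1b : ReflTransGen (RR cs n q ω (v * cs.simple s)) 1 b := r2.trans hb
  obtain ⟨c, hac, hbc⟩ := newman (RR cs n q ω (v * cs.simple s))
    (fun y => cs.length ω - cs.length y) (fun y z h => RR_lt cs _ y z h)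
    (fun y z z' => loc cs hq hM hKEX hA h1 h2 hPl hW hP hf (v * cs.simple s) y z z') 1 a b h1a h1b
  have hcb : c = b := by
    rcases ReflTransGen.cases_head hbc with h | ⟨d, hd, -⟩
    · exact h.symm
    · exact absurd hd (hb' d)
  subst hcb
  have hab : a ≠ c := by
    rintro rfl
    exact hne (hKUN n q ω a U U' haU hbU)
  obtain ⟨d, hd, -⟩ : ∃ d, RR cs n q ω (v * cs.simple s) a d ∧
      ReflTransGen (RR cs n q ω (v * cs.simple s)) d c := by
    rcases ReflTransGen.cases_head hac with h | ⟨d, hd, hd'⟩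
    · exact absurd h hab
    · exact ⟨d, hd, hd'⟩
  have hnot := ha' d
  obtain ⟨t, rfl, k1, k2, k3⟩ := hd
  have hnK : ¬ Keq cs n q ω a (a * cs.simple t) := fun h => hnot ⟨t, rfl, k1, k2, Or.inl h⟩
  have hnv : ¬ geo cs v⁻¹ (geo cs a (ee t)) ≤ 0 := fun h => hnot ⟨t, rfl, k1, k2, Or.inr h⟩
  have hvs : geo cs (v * cs.simple s)⁻¹ (geo cs a (ee t)) ≤ 0 := k3.resolve_left hnK
  have hρ : IsRt cs (geo cs a (ee t)) := hB.rt_geo a _ (hB.rt_ee t)
  have hρ0 : 0 ≤ geo cs a (ee t) := geo_nonneg cs a t k1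
  -- the root is `v e_s`
  have hγ : IsRt cs (geo cs v⁻¹ (geo cs a (ee t))) := hB.rt_geo _ _ hρ
  have hγ0 : 0 ≤ geo cs v⁻¹ (geo cs a (ee t)) := (hB.rt_sign _ hγ).resolve_right hnv
  have hγs : geo cs v⁻¹ (geo cs a (ee t)) = ee s := by
    by_contra hcon
    have h3 := hB.rt_simple _ s hγ hγ0 hcon
    rw [mul_inv_rev, cs.inv_simple, geo_mul] at hvs
    exact hB.rt_ne _ (hB.rt_geo (cs.simple s) _ hγ) (le_antisymm hvs h3)
  have hρs : geo cs a (ee t) = geo cs v (ee s) := by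
    rw [← hγs, geo_apply_inv]
  have hω : geo cs ω⁻¹ (geo cs a (ee t)) ≤ 0 :=
    (w7 a ω t k1 (w3 _ _ _ (wle_up cs a t k1) k2)).1 k2
  -- a skipped position
  have hexg : ∃ g, g < n ∧ g ∉ U ∧ rt cs q U g = geo cs a (ee t) := by
    by_contra hcon
    push Not at hcon
    exact hnK ⟨U, haU, (hC n q ω a t U k1).1 haU fun k hk1 hk2 => hcon k hk1 hk2⟩
  classical
  set g := Nat.find hexg with hg
  obtain ⟨g1, g2, g3⟩ := Nat.find_spec hexg
  have gmin : ∀ k, k < g → k ∉ U → rt cs q U k ≠ geo cs a (ee t) := by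
    intro k hk1 hk2 hk3
    exact Nat.find_min hexg hk1 ⟨by omega, hk2, hk3⟩
  obtain ⟨g', a1, a2, a3, a4, a5⟩ := (hC n q ω v s U hv).2.1 hU g g1 g2 (by rw [g3, hρs])
    (fun k hk1 hk2 => by rw [← hρs]; exact gmin k hk1 hk2) (by rw [← hρs]; exact hω)
  obtain ⟨g'', b1, b2, b3, b4, b5⟩ := (hC n q ω a t U k1).2.1 haU g g1 g2 g3 gmin hω
  have hgg : g' = g'' := (hR n q ω U hU.fac).2.2.1 g' a3 g'' b3 (by rw [a4, b4, hρs])
  have hUU : U' = insert g (U.erase g') := hKUN n q ω _ _ _ hU' a5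
  refine ⟨a, t, k1, k2, haU, ?_⟩
  rw [hUU, hgg]
  exact b5

theorem gh [Finite W] (_hN : Pool.Agent.W236.Lt.S_Newman.{u}) (hM : ∀ i j, M i j ≠ 0)
    (hB : BaseF cs)
    (hR : S_ROOTS cs) (_hF : S_FLIP cs) (hC : S_CROSS cs) (hKEX : S_KEX cs)
    (hKUN : S_KUN cs) (hW : S_WEAK cs) (hP : S_POLY cs) (hPl : S_PLANE cs) (hA : S_ALTF cs)
    (h1 : S_PF1 cs) (h2 : S_PF2 cs) (hCI : S_CI cs) : S_GH cs :=
  gh' cs hM hB hR hC hKEX hKUN hW hP hPl hA h1 h2 hCI

end main

end Pool.Agent.W928.SC.GH
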